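import Pool.Agent.H9.AM.Main

/-!
# A lower bound in Malle's question for alternating groups over every number field

For every number field `k`, every `n ≥ 5` and every `a < exponent n`, the number of degree `n`
extensions of `k` (up to `k`-isomorphism) with Galois group `A_n` and relative discriminant of norm
at most `B` is at least `B ^ a` for all large `B`.
-/

set_option autoImplicit false

namespace Pool.Agent.Results.MP_a3214d_nt.AlternatingEighth

/-- The exponent: `1/(n-1)` for `n = 5, 7`, `(n^2-2n+8)/(8n(n-3))` for even `n`, and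
`(n-1)/(8(n-2))` for the other odd `n`. -/
noncomputable def exponent (n : ℕ) : ℝ :=
  if n = 5 ∨ n = 7 then 1 / ((n : ℝ) - 1)
  else if Even n then ((n : ℝ) ^ 2 - 2 * n + 8) / (8 * n * (n - 3))
  else ((n : ℝ) - 1) / (8 * (n - 2))

theorem result :
    ∀ (k : Type) [Field k] [NumberField k] (n : ℕ), 5 ≤ n →
      1 / 8 + 1 / (8 * (n : ℝ)) < exponent n ∧
      ∀ a : ℝ, a < exponent n → ∀ᶠ B : ℝ in Filter.atTop, B ^ a ≤
        ((Nat.card (Quot (fun L L' : {M : IntermediateField k (AlgebraicClosure k) //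
            Module.finrank k M = n ∧
            (∃ e : (M →ₐ[k] AlgebraicClosure k) ≃ Fin n, ∀ π : Equiv.Perm (Fin n),
              π ∈ alternatingGroup (Fin n) ↔ ∃ σ : AlgebraicClosure k ≃ₐ[k] AlgebraicClosure k,
                ∀ φ : M →ₐ[k] AlgebraicClosure k, e (σ.toAlgHom.comp φ) = π (e φ)) ∧
            ∃ h : NumberField M,
              ((|@NumberField.discr M _ h| : ℤ) : ℝ) ≤ B * ((|NumberField.discr k| : ℤ) : ℝ) ^ n}
          => Nonempty (L.1 ≃ₐ[k] L'.1))) : ℕ) : ℝ) := by
  intro k _ _ n hn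
  exact ⟨Pool.Agent.H9.AM.expo_gt hn, fun a ha => Pool.Agent.H9.AM.main' k hn a ha⟩

end Pool.Agent.Results.MP_a3214d_nt.AlternatingEighth
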