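import Mathlib
import Pool.Agent.H20.ML.Main

/-!
# Lower bounds toward Malle's conjecture for every group realised over `k(t)`

`k` is a number field, `L` an extension of degree `n` of `k(t)` with the permutation group `G`, not
generated by constants. The number of extensions of degree `n` of `k` with the permutation group `G`
and discriminant norm at most `B` is at least `B^(1/A - ε)` for large `B`. Here `A` is the positive
integer with `dim L(m) = n (m + 1) - A` for all large `m`, where `L(m)` is the space of the roots in
`L` of monic polynomials over `k[t]` whose coefficient of `Y^(N-j)` has degree at most `m j`, `N` the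
degree of the polynomial (the functions whose poles are bounded by `m` times the pole divisor of
`t`). By Riemann's theorem `A = n + g - 1` if `k` is algebraically closed in `L`, `g` the genus.
-/

set_option autoImplicit false

open Polynomial NumberField Filter

namespace Pool.Agent.Results.MP_a3214d_nt.CoversOfLine

theorem result (k : Type) [Field k] [NumberField k] (n : ℕ) (hn : 0 < n)
    (G : Subgroup (Equiv.Perm (Fin n)))
    (L : IntermediateField (RatFunc k) (AlgebraicClosure (RatFunc k)))
    (hL : Module.finrank (RatFunc k) L = n)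
    (hG : ∃ e : (L →ₐ[RatFunc k] AlgebraicClosure (RatFunc k)) ≃ Fin n,
      ∀ π : Equiv.Perm (Fin n), π ∈ G ↔
        ∃ σ : AlgebraicClosure (RatFunc k) ≃ₐ[RatFunc k] AlgebraicClosure (RatFunc k),
          ∀ φ : L →ₐ[RatFunc k] AlgebraicClosure (RatFunc k), e (σ.toAlgHom.comp φ) = π (e φ))
    (hnc : IntermediateField.adjoin (RatFunc k) {x : L | IsAlgebraic k x} ≠ ⊤) :
    ∃ A : ℕ, 0 < A ∧
      (∀ᶠ m : ℕ in atTop, Module.finrank k (Submodule.span k {y : L | ∃ P : k[X][X], P.Monic ∧
        aeval y P = 0 ∧ ∀ j ≤ P.natDegree, (P.coeff j).natDegree ≤ m * (P.natDegree - j)}) + A =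
          n * (m + 1)) ∧
      ∀ ε : ℝ, 0 < ε → ∀ᶠ B : ℝ in atTop, B ^ (1 / (A : ℝ) - ε) ≤
        ((Nat.card (Quot (fun L L' : {M : IntermediateField k (AlgebraicClosure k) //
            Module.finrank k M = n ∧
            (∃ e : (M →ₐ[k] AlgebraicClosure k) ≃ Fin n, ∀ π : Equiv.Perm (Fin n),
               π ∈ G ↔ ∃ σ : AlgebraicClosure k ≃ₐ[k] AlgebraicClosure k,
                 ∀ φ : M →ₐ[k] AlgebraicClosure k, e (σ.toAlgHom.comp φ) = π (e φ)) ∧
            ∃ h : NumberField M,
              ((|@NumberField.discr M _ h| : ℤ) : ℝ) ≤ B * ((|NumberField.discr k| : ℤ) : ℝ) ^ n}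
          => Nonempty (L.1 ≃ₐ[k] L'.1))) : ℕ) : ℝ) := by
  have : FiniteDimensional (RatFunc k) L := Module.finite_of_finrank_pos (by rw [hL]; exact hn)
  exact H20.ML.main_intrinsic k n G L hL hG hnc

end Pool.Agent.Results.MP_a3214d_nt.CoversOfLine
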