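import Pool.Agent.H20.UT.Z

/-!
Parshin's conjecture for `K_1` of uniruled threefolds: for every regular projective threefold `X`
over an algebraic extension `F` of a prime field `F_p` (a finite field, or an algebraic closure of
it) whose function field embeds in a rational function field `K(t)`, where `K` is the function
field of a regular projective surface, the group `H^1(X, K_2)` is a torsion group.

Here `H^1(X, K_2)` is the group of the sections `β` of the sheaf `K_2(F(X)) / K_2` modulo the
elements of `K_2(F(X))`; a section is given, up to symbols of units, by its tame symbols at the
points of codimension one.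
-/

set_option autoImplicit false

open AlgebraicGeometry CategoryTheory Pool.Agent.K1 Pool.Agent.KM Pool.Agent.H20.UT

namespace Pool.Agent.Results.MP_27fd67_ag.UniruledThreefolds

/-- Let `F` be an algebraic extension of the field with `p` elements (for example a finite field),
`X` an integral closed subscheme of a projective space over `F`, all of whose local rings are
regular, of dimension three. Let `S` be a regular projective surface over an algebraically closed
field `k` which is algebraic over the field with `p` elements, and suppose that the function field
of `X` embeds in the rational function field in one variable over the function field of `S` (that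
is, `X` is uniruled). Let `β` be a section of the sheaf `K_2(F(X)) / K_2` on `X`, and `ξ` the chain
of its tame symbols at the points of codimension one. Then `ξ` has a positive multiple that is a
sum of tame symbols of pairs of nonzero rational functions on `X`. -/
theorem result (p : ℕ) [Fact p.Prime] (F : Type) [Field F]
    [Algebra (ZMod p) F] [Algebra.IsAlgebraic (ZMod p) F] (n : ℕ)
    (X : Scheme.{0}) [IsIntegral X] [IsNoetherian X] (i : X ⟶ PN F n) [IsClosedImmersion i]
    (hreg : ∀ x : X, IsRegularLocalRing (X.presheaf.stalk x))
    (hdim : ∀ x : X, Order.coheight x ≤ 3) (hdim3 : ∃ x : X, Order.coheight x = 3)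
    (k : Type) [Field k] [IsAlgClosed k] [Algebra (ZMod p) k] [Algebra.IsAlgebraic (ZMod p) k]
    (m : ℕ) (S : Scheme.{0}) [IsIntegral S] [IsNoetherian S] (j : S ⟶ PN k m)
    [IsClosedImmersion j] (hregS : ∀ x : S, IsRegularLocalRing (S.presheaf.stalk x))
    (hdimS : ∀ x : S, Order.coheight x ≤ 2) (hdimS2 : ∃ x : S, Order.coheight x = 2)
    (ι : X.functionField →+* RatFunc S.functionField)
    (β : X → MilnorK X.functionField 2) (hβ : IsSection2 β) (ξ : SChain X)
    (hξ : ∀ x : PointOne X, IsTameK2 x.1 (β x.1) (Additive.toMul (ξ x))) :
    ∃ N : ℕ, 0 < N ∧ N • ξ ∈ tameChains X :=
  final_all p F n X i hreg hdim hdim3 k m S j hregS hdimS hdimS2 ι β hβ ξ hξ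

end Pool.Agent.Results.MP_27fd67_ag.UniruledThreefolds
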